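import Mathlib

set_option autoImplicit false

namespace Pool.Agent.H19Bent

/-- Boolean functions in `n` variables. -/
abbrev BoolFun (n : ℕ) : Type := (Fin n → ZMod 2) → ZMod 2

/-- The sign `(-1)^a` of an element `a` of `F₂`. -/
def sgn (a : ZMod 2) : ℤ := if a = 0 then 1 else -1

/-- The Walsh-Hadamard transform `W_f(y) = ∑ x, (-1)^(f(x) + ⟨x,y⟩)`. -/
def walsh {n : ℕ} (f : BoolFun n) (y : Fin n → ZMod 2) : ℤ :=
  ∑ x : Fin n → ZMod 2, sgn (f x + ∑ i, x i * y i)

/-- `f` is bent: `|W_f(y)| = 2^(n/2)` for all `y` (used for even `n` only). -/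
def IsBent {n : ℕ} (f : BoolFun n) : Prop := ∀ y, |walsh f y| = 2 ^ (n / 2)

/-- The dual of a bent function: `W_f(y) = 2^(n/2) (-1)^(dual f y)`. -/
def dual {n : ℕ} (f : BoolFun n) : BoolFun n := fun y => if 0 < walsh f y then 0 else 1

/-- The set of bent functions in `n` variables. -/
def bent (n : ℕ) : Set (BoolFun n) := {f | IsBent f}

/-- The restriction of `g(a₁, a₂, x)` to fixed values of the first two variables. -/
def restr {n : ℕ} (g : BoolFun (n + 2)) (a₁ a₂ : ZMod 2) : BoolFun n :=
  fun x => g (Fin.cons a₁ (Fin.cons a₂ x))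

/-- The set of bent iterative functions in `n + 2` variables: the four restrictions to fixed values
of the first two variables are bent and their duals sum to the constant function `1`. -/
def bentIter (n : ℕ) : Set (BoolFun (n + 2)) :=
  {g | (∀ a₁ a₂, IsBent (restr g a₁ a₂)) ∧
    ∀ y, dual (restr g 0 0) y + dual (restr g 0 1) y + dual (restr g 1 0) y +
      dual (restr g 1 1) y = 1}

end Pool.Agent.H19Bent
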