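import Mathlib
import Pool.Agent.H19Bent.Defs

set_option autoImplicit false

namespace Pool.Agent.H19Bent

/-! ### Basic facts -/

theorem sgn_add (a b : ZMod 2) : sgn (a + b) = sgn a * sgn b := by
  revert a b
  decide

theorem sgn_abs (a : ZMod 2) : |sgn a| = 1 := by
  revert a
  decide

theorem sgn_sum_four (a b c d : ZMod 2) (h : a + b + c + d = 1) :
    |sgn a + sgn b + sgn c + sgn d| = 2 := by
  revert a b c d
  decide

theorem walsh_eq_dual {n : ℕ} {f : BoolFun n} (hf : IsBent f) (y : Fin n → ZMod 2) :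
    walsh f y = 2 ^ (n / 2) * sgn (dual f y) := by
  have h := hf y
  unfold dual
  by_cases hp : 0 < walsh f y
  · rw [if_pos hp]
    rw [abs_of_pos hp] at h
    rw [h]
    simp [sgn]
  · rw [if_neg hp]
    rw [abs_of_nonpos (not_lt.1 hp)] at h
    have : sgn 1 = -1 := by decide
    rw [this]
    linarith

theorem sum_cons {n : ℕ} (F : (Fin (n + 1) → ZMod 2) → ℤ) :
    ∑ x, F x = ∑ a : ZMod 2, ∑ x : Fin n → ZMod 2, F (Fin.cons a x) := by
  rw [← Fintype.sum_prod_type']
  exact (Fintype.sum_equiv (Fin.consEquiv (fun _ : Fin (n + 1) => ZMod 2))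
    (fun p => F (Fin.cons p.1 p.2)) F (fun p => rfl)).symm

theorem walsh_restr {n : ℕ} (g : BoolFun (n + 2)) (b₁ b₂ : ZMod 2) (y : Fin n → ZMod 2) :
    walsh g (Fin.cons b₁ (Fin.cons b₂ y)) =
      ∑ a₁ : ZMod 2, ∑ a₂ : ZMod 2, sgn (a₁ * b₁ + a₂ * b₂) * walsh (restr g a₁ a₂) y := by
  unfold walsh
  rw [sum_cons]
  refine Finset.sum_congr rfl fun a₁ _ => ?_
  rw [sum_cons]
  refine Finset.sum_congr rfl fun a₂ _ => ?_
  rw [Finset.mul_sum]
  refine Finset.sum_congr rfl fun x _ => ?_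
  rw [← sgn_add]
  congr 1
  simp only [Fin.sum_univ_succ, Fin.cons_zero, Fin.cons_succ, restr]
  ring

theorem cons_cons_surj {n : ℕ} (z : Fin (n + 2) → ZMod 2) :
    ∃ b₁ b₂ y, z = Fin.cons b₁ (Fin.cons b₂ y : Fin (n + 1) → ZMod 2) := by
  refine ⟨z 0, z 1, fun i => z i.succ.succ, ?_⟩
  funext i
  refine Fin.cases ?_ (fun j => ?_) i
  · simp
  · refine Fin.cases ?_ (fun k => ?_) j
    · simp
    · simp

theorem bentIter_subset {n : ℕ} {g : BoolFun (n + 2)} (hg : g ∈ bentIter n) :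
    IsBent g := by
  obtain ⟨h1, h2⟩ := hg
  intro z
  obtain ⟨b₁, b₂, y, rfl⟩ := cons_cons_surj z
  rw [walsh_restr]
  have e : ∀ a₁ a₂, walsh (restr g a₁ a₂) y = 2 ^ (n / 2) * sgn (dual (restr g a₁ a₂) y) :=
    fun a₁ a₂ => walsh_eq_dual (h1 a₁ a₂) y
  simp only [e]
  have huniv : (Finset.univ : Finset (ZMod 2)) = {0, 1} := rfl
  simp only [huniv, Finset.sum_pair (show (0 : ZMod 2) ≠ 1 by decide)]
  have key : sgn (0 * b₁ + 0 * b₂) * (2 ^ (n / 2) * sgn (dual (restr g 0 0) y)) +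
        sgn (0 * b₁ + 1 * b₂) * (2 ^ (n / 2) * sgn (dual (restr g 0 1) y)) +
      (sgn (1 * b₁ + 0 * b₂) * (2 ^ (n / 2) * sgn (dual (restr g 1 0) y)) +
        sgn (1 * b₁ + 1 * b₂) * (2 ^ (n / 2) * sgn (dual (restr g 1 1) y))) =
      2 ^ (n / 2) * (sgn (0 * b₁ + 0 * b₂ + dual (restr g 0 0) y) +
        sgn (0 * b₁ + 1 * b₂ + dual (restr g 0 1) y) +
        sgn (1 * b₁ + 0 * b₂ + dual (restr g 1 0) y) +
        sgn (1 * b₁ + 1 * b₂ + dual (restr g 1 1) y)) := by
    simp only [sgn_add]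
    ring
  rw [key, abs_mul, sgn_sum_four]
  · rw [abs_of_nonneg (by positivity : (0 : ℤ) ≤ 2 ^ (n / 2))]
    have : (n + 2) / 2 = n / 2 + 1 := by omega
    rw [this, pow_succ]
  · have h3 := h2 y
    have h4 : ∀ b : ZMod 2, b + b = 0 := by decide
    linear_combination h3 + h4 b₁ + h4 b₂

/-- Gluing four functions. -/
def glue {n : ℕ} (F : ZMod 2 → ZMod 2 → BoolFun n) : BoolFun (n + 2) :=
  fun z => F (z 0) (z 1) fun i => z i.succ.succ

theorem restr_glue {n : ℕ} (F : ZMod 2 → ZMod 2 → BoolFun n) (a₁ a₂ : ZMod 2) :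
    restr (glue F) a₁ a₂ = F a₁ a₂ := by
  funext x
  simp only [restr, glue]
  congr 1

theorem restr_injective {n : ℕ} {g h : BoolFun (n + 2)}
    (H : ∀ a₁ a₂, restr g a₁ a₂ = restr h a₁ a₂) : g = h := by
  funext z
  obtain ⟨b₁, b₂, y, rfl⟩ := cons_cons_surj z
  exact congrFun (H b₁ b₂) y

theorem walsh_add_one {n : ℕ} (f : BoolFun n) (y : Fin n → ZMod 2) :
    walsh (fun x => f x + 1) y = - walsh f y := by
  unfold walsh
  rw [← Finset.sum_neg_distrib]
  refine Finset.sum_congr rfl fun x _ => ?_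
  rw [add_right_comm, sgn_add]
  have : sgn 1 = -1 := by decide
  rw [this]
  ring

theorem isBent_add_one {n : ℕ} {f : BoolFun n} (hf : IsBent f) :
    IsBent (fun x => f x + 1) := by
  intro y
  rw [walsh_add_one, abs_neg]
  exact hf y

theorem walsh_ne_zero {n : ℕ} {f : BoolFun n} (hf : IsBent f) (y : Fin n → ZMod 2) :
    walsh f y ≠ 0 := by
  intro h
  have := hf y
  rw [h, abs_zero] at this
  have h2 : (0 : ℤ) < 2 ^ (n / 2) := by positivity
  omega

theorem dual_add_one {n : ℕ} {f : BoolFun n} (hf : IsBent f) (y : Fin n → ZMod 2) :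
    dual (fun x => f x + 1) y = dual f y + 1 := by
  unfold dual
  rw [walsh_add_one]
  have h0 := walsh_ne_zero hf y
  by_cases hp : 0 < walsh f y
  · rw [if_pos hp, if_neg (by linarith)]
    rfl
  · rw [if_neg hp, if_pos]
    · decide
    · omega

/-- The lower bound `|B_n|² ≤ |BI_{n+2}|`. -/
theorem sq_le_bentIter (n : ℕ) : Nat.card (bent n) ^ 2 ≤ Nat.card (bentIter n) := by
  have hinj : Function.Injective (fun p : bent n × bent n =>
      (⟨glue (fun a₁ a₂ => if a₁ = 0 then p.1.1 else fun x => p.2.1 x + a₂), by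
        constructor
        · intro a₁ a₂
          rw [restr_glue]
          by_cases h1 : a₁ = 0
          · simp only [h1, if_true]
            exact p.1.2
          · simp only [h1, if_false]
            by_cases h2 : a₂ = 0
            · subst h2
              simp only [add_zero]
              exact p.2.2
            · have h3 : a₂ = 1 := by
                revert h2
                revert a₂
                decide
              subst h3
              exact isBent_add_one p.2.2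
        · intro y
          simp only [restr_glue, if_true, one_ne_zero, if_false, add_zero]
          rw [dual_add_one p.2.2]
          have h4 : ∀ b : ZMod 2, b + b = 0 := by decide
          linear_combination h4 (dual p.1.1 y) + h4 (dual p.2.1 y)⟩ : bentIter n)) := by
    intro p p' hpp
    have h1 := congrArg Subtype.val hpp
    simp only at h1
    have h2 := congrArg (fun g => restr g 0 0) h1
    have h3 := congrArg (fun g => restr g 1 0) h1
    simp only [restr_glue, if_true, one_ne_zero, if_false, add_zero] at h2 h3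
    exact Prod.ext (Subtype.ext h2) (Subtype.ext h3)
  have h := Nat.card_le_card_of_injective _ hinj
  rw [Nat.card_prod] at h
  calc Nat.card (bent n) ^ 2 = Nat.card (bent n) * Nat.card (bent n) := sq _
    _ ≤ _ := h

/-- The upper bound `|BI_(n+2)| ≤ |B_n|⁴`. -/
theorem bentIter_le (n : ℕ) : Nat.card (bentIter n) ≤ Nat.card (bent n) ^ 4 := by
  have hinj : Function.Injective (fun g : bentIter n =>
      ((⟨restr g.1 0 0, g.2.1 0 0⟩, ⟨restr g.1 0 1, g.2.1 0 1⟩,
        ⟨restr g.1 1 0, g.2.1 1 0⟩, ⟨restr g.1 1 1, g.2.1 1 1⟩) :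
        bent n × bent n × bent n × bent n)) := by
    intro g g' h
    simp only [Prod.mk.injEq] at h
    apply Subtype.ext
    apply restr_injective
    intro a₁ a₂
    have h0 : ∀ a : ZMod 2, a = 0 ∨ a = 1 := by decide
    rcases h0 a₁ with h1 | h1 <;> rcases h0 a₂ with h2 | h2 <;> subst h1 <;> subst h2
    · exact congrArg Subtype.val h.1
    · exact congrArg Subtype.val h.2.1
    · exact congrArg Subtype.val h.2.2.1
    · exact congrArg Subtype.val h.2.2.2
  have h := Nat.card_le_card_of_injective _ hinj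
  rw [Nat.card_prod, Nat.card_prod, Nat.card_prod] at h
  calc _ ≤ _ := h
    _ = Nat.card (bent n) ^ 4 := by ring

/-- `|BI_{n+2}| ≤ |B_{n+2}|`. -/
theorem bentIter_le_bent (n : ℕ) : Nat.card (bentIter n) ≤ Nat.card (bent (n + 2)) :=
  Nat.card_mono (Set.toFinite _) fun _ hg => bentIter_subset hg

theorem bent_zero : 2 ≤ Nat.card (bent 0) := by
  have hall : bent 0 = Set.univ := by
    ext f
    simp only [bent, Set.mem_ofPred_eq, Set.mem_univ, iff_true]
    intro y
    unfold walsh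
    rw [Fintype.sum_unique]
    rw [sgn_abs]
    simp
  rw [hall, Nat.card_univ, Nat.card_eq_fintype_card]
  simp [BoolFun]

/-- `2 ^ 2 ^ j ≤ |B_{2j}|`. -/
theorem two_pow_le_bent (j : ℕ) : 2 ^ 2 ^ j ≤ Nat.card (bent (2 * j)) := by
  induction j with
  | zero => exact bent_zero
  | succ j ih =>
    calc 2 ^ 2 ^ (j + 1) = (2 ^ 2 ^ j) ^ 2 := by
          rw [← pow_mul, pow_succ 2 j]
      _ ≤ Nat.card (bent (2 * j)) ^ 2 := Nat.pow_le_pow_left ih 2
      _ ≤ Nat.card (bentIter (2 * j)) := sq_le_bentIter _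
      _ ≤ Nat.card (bent (2 * j + 2)) := bentIter_le_bent _

/-- `|B_n| ≤ 2 ^ 2 ^ n`. -/
theorem bent_le (n : ℕ) : Nat.card (bent n) ≤ 2 ^ 2 ^ n := by
  calc Nat.card (bent n) ≤ Nat.card (BoolFun n) := by
        exact Nat.card_le_card_of_injective (fun f : bent n => f.1) Subtype.val_injective
    _ = 2 ^ 2 ^ n := by
        rw [Nat.card_eq_fintype_card]
        simp [BoolFun, ZMod.card]


/-! ### Double logarithms -/

/-- `log₂ log₂ |B_n|`. -/
noncomputable def llB (n : ℕ) : ℝ := Real.logb 2 (Real.logb 2 (Nat.card (bent n)))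

/-- `log₂ log₂ |BI_{n+2}|`. -/
noncomputable def llBI (n : ℕ) : ℝ := Real.logb 2 (Real.logb 2 (Nat.card (bentIter n)))

theorem logb_two_two_pow (k : ℕ) : Real.logb 2 ((2 : ℝ) ^ k) = k := by
  rw [Real.logb_pow, Real.logb_self_eq_one (by norm_num)]
  ring

theorem le_llB (j : ℕ) : (j : ℝ) ≤ llB (2 * j) := by
  have h1 : ((2 : ℝ) ^ 2 ^ j) ≤ (Nat.card (bent (2 * j)) : ℝ) := by
    exact_mod_cast two_pow_le_bent j
  have h2 : ((2 : ℝ) ^ j) ≤ Real.logb 2 (Nat.card (bent (2 * j))) := by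
    have h3 := Real.logb_le_logb_of_le (b := 2) (by norm_num) (by positivity) h1
    rw [logb_two_two_pow] at h3
    exact_mod_cast h3
  have h3 := Real.logb_le_logb_of_le (b := 2) (by norm_num) (by positivity) h2
  rw [logb_two_two_pow] at h3
  exact h3

theorem llB_le (j : ℕ) : llB (2 * j) ≤ 2 * j := by
  have h0 : (0 : ℝ) < (Nat.card (bent (2 * j)) : ℝ) := by
    have := two_pow_le_bent j
    have h2 : 0 < Nat.card (bent (2 * j)) := lt_of_lt_of_le (by positivity) this
    exact_mod_cast h2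
  have h1 : (Nat.card (bent (2 * j)) : ℝ) ≤ (2 : ℝ) ^ 2 ^ (2 * j) := by
    exact_mod_cast bent_le (2 * j)
  have h2 : Real.logb 2 (Nat.card (bent (2 * j))) ≤ (2 : ℝ) ^ (2 * j) := by
    have h3 := Real.logb_le_logb_of_le (b := 2) (by norm_num) h0 h1
    rw [logb_two_two_pow] at h3
    exact_mod_cast h3
  have h4 : (1 : ℝ) ≤ Real.logb 2 (Nat.card (bent (2 * j))) := by
    have h1 : ((2 : ℝ) ^ 2 ^ j) ≤ (Nat.card (bent (2 * j)) : ℝ) := by
      exact_mod_cast two_pow_le_bent j
    have h3 := Real.logb_le_logb_of_le (b := 2) (by norm_num) (by positivity) h1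
    rw [logb_two_two_pow] at h3
    have h5 : (1 : ℝ) ≤ ((2 ^ j : ℕ) : ℝ) := by exact_mod_cast Nat.one_le_two_pow
    linarith
  have h3 := Real.logb_le_logb_of_le (b := 2) (by norm_num) (by linarith) h2
  rw [logb_two_two_pow] at h3
  push_cast at h3
  exact h3

theorem log_bent_pos (j : ℕ) : 1 ≤ Real.logb 2 (Nat.card (bent (2 * j))) := by
  have h1 : ((2 : ℝ) ^ 2 ^ j) ≤ (Nat.card (bent (2 * j)) : ℝ) := by
    exact_mod_cast two_pow_le_bent j
  have h3 := Real.logb_le_logb_of_le (b := 2) (by norm_num) (by positivity) h1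
  rw [logb_two_two_pow] at h3
  have h5 : (1 : ℝ) ≤ ((2 ^ j : ℕ) : ℝ) := by exact_mod_cast Nat.one_le_two_pow
  linarith

theorem card_bent_pos (j : ℕ) : (0 : ℝ) < (Nat.card (bent (2 * j)) : ℝ) := by
  have h2 : 0 < Nat.card (bent (2 * j)) := lt_of_lt_of_le (by positivity) (two_pow_le_bent j)
  exact_mod_cast h2

theorem llBI_ge (j : ℕ) : llB (2 * j) + 1 ≤ llBI (2 * j) := by
  have h0 := card_bent_pos j
  have h1 : (Nat.card (bent (2 * j)) : ℝ) ^ 2 ≤ (Nat.card (bentIter (2 * j)) : ℝ) := by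
    exact_mod_cast sq_le_bentIter (2 * j)
  have h2 := Real.logb_le_logb_of_le (b := 2) (by norm_num) (by positivity) h1
  rw [Real.logb_pow] at h2
  have h3 := log_bent_pos j
  have h4 := Real.logb_le_logb_of_le (b := 2) (by norm_num)
    (by push_cast; linarith) h2
  rw [Real.logb_mul (by norm_num) (by linarith)] at h4
  have h5 : Real.logb 2 ((2 : ℕ) : ℝ) = 1 := by
    push_cast
    exact Real.logb_self_eq_one (by norm_num)
  rw [h5] at h4
  show llB (2 * j) + 1 ≤ llBI (2 * j)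
  unfold llB llBI
  linarith

theorem llBI_le (j : ℕ) : llBI (2 * j) ≤ llB (2 * j) + 2 := by
  have h0 := card_bent_pos j
  have hlow : (Nat.card (bent (2 * j)) : ℝ) ^ 2 ≤ (Nat.card (bentIter (2 * j)) : ℝ) := by
    exact_mod_cast sq_le_bentIter (2 * j)
  have hpos : (0 : ℝ) < (Nat.card (bentIter (2 * j)) : ℝ) := lt_of_lt_of_le (by positivity) hlow
  have h1 : (Nat.card (bentIter (2 * j)) : ℝ) ≤ (Nat.card (bent (2 * j)) : ℝ) ^ 4 := by
    exact_mod_cast bentIter_le (2 * j)
  have h2 := Real.logb_le_logb_of_le (b := 2) (by norm_num) hpos h1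
  rw [Real.logb_pow] at h2
  have h3 := log_bent_pos j
  have h2' := Real.logb_le_logb_of_le (b := 2) (by norm_num) (by positivity) hlow
  rw [Real.logb_pow] at h2'
  have h4 := Real.logb_le_logb_of_le (b := 2) (by norm_num)
    (lt_of_lt_of_le (by push_cast; linarith) h2') h2
  rw [Real.logb_mul (by norm_num) (by linarith)] at h4
  have h5 : Real.logb 2 ((4 : ℕ) : ℝ) = 2 := by
    have : ((4 : ℕ) : ℝ) = 2 ^ 2 := by norm_num
    rw [this, logb_two_two_pow]
    norm_num
  rw [h5] at h4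
  show llBI (2 * j) ≤ llB (2 * j) + 2
  unfold llB llBI
  linarith

theorem llBI_le_llB (j : ℕ) : llBI (2 * j) ≤ llB (2 * (j + 1)) := by
  have h0 := card_bent_pos j
  have hlow : (Nat.card (bent (2 * j)) : ℝ) ^ 2 ≤ (Nat.card (bentIter (2 * j)) : ℝ) := by
    exact_mod_cast sq_le_bentIter (2 * j)
  have hpos : (0 : ℝ) < (Nat.card (bentIter (2 * j)) : ℝ) := lt_of_lt_of_le (by positivity) hlow
  have h1 : (Nat.card (bentIter (2 * j)) : ℝ) ≤ (Nat.card (bent (2 * j + 2)) : ℝ) := by
    exact_mod_cast bentIter_le_bent (2 * j)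
  have h2 := Real.logb_le_logb_of_le (b := 2) (by norm_num) hpos h1
  have h3 := log_bent_pos j
  have h2' := Real.logb_le_logb_of_le (b := 2) (by norm_num) (by positivity) hlow
  rw [Real.logb_pow] at h2'
  exact Real.logb_le_logb_of_le (b := 2) (by norm_num)
    (lt_of_lt_of_le (by push_cast; linarith) h2') h2

theorem llB_step (j : ℕ) : llB (2 * j) + 1 ≤ llB (2 * (j + 1)) :=
  (llBI_ge j).trans (llBI_le_llB j)

end Pool.Agent.H19Bent
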